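import Mathlib
import Pool.Agent.Q265.PR.E

set_option autoImplicit false

/-! # Primitive roots in deterministic time `p ^ ε` outside of an obstruction at boundedly many
# primes -/

namespace Pool.Agent.Results.MP_18a8a6_lc.BoundedlyManyObstructions

open Finset

/-- the number `g` is a primitive root modulo `p` -/
def IsPrimRoot (p g : ℕ) : Prop := orderOf (g : ZMod p) = p - 1

open Classical in
/-- After `T` rounds the algorithm made of the three functions `init`, `step`, `out` puts out, on
the input `p` in binary, (the code of) a list of `p.size ^ C` numbers all of which up to a fraction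
of at most `p.size ^ (-B)` are primitive roots modulo `p`. -/
def Finds (init step out : List Bool → List Bool) (B C p T : ℕ) : Prop :=
  ∃ F : List ℕ, out (step^[T] (init (Nat.bits p))) = NPC.bits F ∧ F.length = p.size ^ C ∧
    p.size ^ B * #{i ∈ range F.length | ¬ IsPrimRoot p (F.getD i 0)} ≤ F.length

/-- `l` does not divide `p - 1`, or `-1` or one of `1, 2, …, p ^ δ` is not an `l`-th power modulo
`p` -/
def Easy (p : ℕ) (δ : ℝ) (l : ℕ) : Prop :=
  l ∣ p - 1 → ∃ x : ZMod p, (x = -1 ∨ ∃ i : ℕ, 1 ≤ i ∧ (i : ℝ) ≤ (p : ℝ) ^ δ ∧ x = i) ∧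
    ¬ ∃ c : ZMod p, c ^ l = x

/-- **Only boundedly many primes obstruct finding primitive roots in time `p ^ ε`.**
For `0 < ε ≤ 1` and every `B` there are constants `C`, `K` and three functions `init`, `step`, `out`
on bit strings computable in polynomial time (by Turing machines) such that all the states which
occur on the input `p` have at most `40 * size p` bits (linear space) and for every prime `p ≥ p₀`:

(1) if for every prime `l < K` dividing `p - 1` one of `-1, 1, 2, …, p ^ (ε / 2)` is not an `l`-th
    power modulo `p`, then `p ^ ε` rounds suffice to produce a list of `size p ^ C` numbers of which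
    all but a fraction `size p ^ (-B)` are primitive roots modulo `p`;
(2) this is so for all `p ≢ 1` modulo `8` such that `p - 1` has no odd prime factor below `K`. -/
theorem result (ε : ℝ) (hε : 0 < ε) (hε1 : ε ≤ 1) (B : ℕ) :
    ∃ (C : ℕ) (init step out : List Bool → List Bool),
      NPC.PolyTime init ∧ NPC.PolyTime step ∧ NPC.PolyTime out ∧
      (∀ p : ℕ, 2 ≤ p → ∀ k : ℕ, (step^[k] (init (Nat.bits p))).length ≤ 40 * p.size) ∧
      ∃ K p₀ : ℕ, ∀ p : ℕ, p₀ ≤ p → p.Prime → ∀ T : ℕ, (p : ℝ) ^ ε ≤ T →
        ((∀ l : ℕ, l.Prime → l < K → Easy p (ε / 2) l) → Finds init step out B C p T) ∧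
        (p % 8 ≠ 1 → (∀ l : ℕ, l.Prime → l ≠ 2 → l ∣ p - 1 → K ≤ l) →
          Finds init step out B C p T) := by
  obtain ⟨C, init, step, out, h1, h2, h3, h4, K, p₀, h⟩ := Pool.Agent.Q265.PR.E.main ε hε hε1 B
  refine ⟨C, init, step, out, h1, h2, h3, h4, K, p₀, fun p hp hpp T hT => ?_⟩
  obtain ⟨-, -, -, a, b⟩ := h p hp hpp T
  exact ⟨fun h1 => a h1 hT, fun h1 h2 => b h1 h2 hT⟩

end Pool.Agent.Results.MP_18a8a6_lc.BoundedlyManyObstructions
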