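import Mathlib
import Pool.Agent.Q265.PR.E

set_option autoImplicit false

/-! # Primitive roots modulo every prime in deterministic time `p ^ (1 / (4 √e) + ε)` -/

namespace Pool.Agent.Results.MP_18a8a6_lc.EveryPrimeSmallExponent

open Finset

/-- the number `g` is a primitive root modulo `p` -/
def IsPrimRoot (p g : ℕ) : Prop := orderOf (g : ZMod p) = p - 1

open Classical in
/-- After `T` rounds the algorithm made of the three functions `init`, `step`, `out` puts out, on
the input `p` in binary, (the code of) a list of `p.size ^ C` numbers all of which up to a fraction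
of at most `p.size ^ (-B)` are primitive roots modulo `p`. -/
def Finds (init step out : List Bool → List Bool) (B C p T : ℕ) : Prop :=
  ∃ F : List ℕ, out (step^[T] (init (Nat.bits p))) = NPC.bits F ∧ F.length = p.size ^ C ∧
    p.size ^ B * #{i ∈ range F.length | ¬ IsPrimRoot p (F.getD i 0)} ≤ F.length

/-- `l` does not divide `p - 1`, or `-1` or one of `1, 2, …, p ^ δ` is not an `l`-th power modulo
`p` -/
def Easy (p : ℕ) (δ : ℝ) (l : ℕ) : Prop :=
  l ∣ p - 1 → ∃ x : ZMod p, (x = -1 ∨ ∃ i : ℕ, 1 ≤ i ∧ (i : ℝ) ≤ (p : ℝ) ^ δ ∧ x = i) ∧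
    ¬ ∃ c : ZMod p, c ^ l = x

/-- **Primitive roots modulo every prime, without the factorisation of `p - 1`.**
For `0 < ε ≤ 1` and every `B` there are `C` and three functions `init`, `step`, `out` on bit strings
computable in polynomial time (by Turing machines) such that all the states which occur on the input
`p` have at most `40 * size p` bits (linear space) and for every prime `p ≥ p₀`:

(1) `p ^ (1 / (4 √e) + ε)` (`1 / (4 √e) = 0.1516…`) rounds suffice to produce a list of `size p ^ C`
    numbers of which all but a fraction `size p ^ (-B)` are primitive roots modulo `p`;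
(2) if for every prime `l < L` dividing `p - 1` one of `-1, 1, 2, …, p ^ (ε / 2)` is not an `l`-th
    power, `p ^ (1 / (4 e ^ (1 - 1 / L)) + ε)` rounds suffice; in particular (3)
    `p ^ (1 / (4 e ^ (2 / 3)) + ε)` (`0.1283…`) for all `p ≢ 1` modulo `8`. -/
theorem result (ε : ℝ) (hε : 0 < ε) (hε1 : ε ≤ 1) (B : ℕ) :
    ∃ (C : ℕ) (init step out : List Bool → List Bool),
      NPC.PolyTime init ∧ NPC.PolyTime step ∧ NPC.PolyTime out ∧
      (∀ p : ℕ, 2 ≤ p → ∀ k : ℕ, (step^[k] (init (Nat.bits p))).length ≤ 40 * p.size) ∧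
      ∃ p₀ : ℕ, ∀ p : ℕ, p₀ ≤ p → p.Prime → ∀ T : ℕ,
        ((p : ℝ) ^ (1 / (4 * Real.exp (1 / 2)) + ε) ≤ T → Finds init step out B C p T) ∧
        (∀ L : ℕ, 2 ≤ L → (∀ l : ℕ, l.Prime → l < L → Easy p (ε / 2) l) →
          (p : ℝ) ^ (1 / (4 * Real.exp (1 - 1 / (L : ℝ))) + ε) ≤ T →
          Finds init step out B C p T) ∧
        (p % 8 ≠ 1 → (p : ℝ) ^ (1 / (4 * Real.exp (2 / 3)) + ε) ≤ T →
          Finds init step out B C p T) := by
  obtain ⟨C, init, step, out, h1, h2, h3, h4, K, p₀, h⟩ := Pool.Agent.Q265.PR.E.main ε hε hε1 B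
  refine ⟨C, init, step, out, h1, h2, h3, h4, p₀, fun p hp hpp T => ?_⟩
  obtain ⟨a, b, c, -, -⟩ := h p hp hpp T
  exact ⟨a, b, c⟩

end Pool.Agent.Results.MP_18a8a6_lc.EveryPrimeSmallExponent
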