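import Pool.Agent.Q138.PS.XL
import Pool.Agent.Q138.PS.XM
import Pool.Agent.Results.MP_18a8a6_lc.AlmostAllPrimes

/-!
# Primitive roots in deterministic polynomial time for ALL primes near the powers of a real number

Outside ONE set of real numbers of Hausdorff dimension zero every `α > 1` has the following property. For all `l < 1` and `B`
there is a list `F p` of `size(p) ^ C` numbers, computable in polynomial time, such that for all positive algebraic numbers `c`,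
all integers `j` and all large `n`, for EVERY prime `p` with `|p - c n ^ j α ^ n| ≤ D (c n ^ j α ^ n) ^ l` all but a fraction
`size(p) ^ (-B)` of the entries of the list `F p` are primitive roots modulo `p`.
-/

set_option autoImplicit false

namespace Pool.Agent.Results.MP_18a8a6_lc.PrimesNearPowers

open Filter Topology MeasureTheory
open Pool.Agent.Q138.PS
open AlmostAllPrimes (PolyTimeList IsPrimRoot)

open Classical in
/-- all but a fraction `size(p) ^ (-B)` of the entries of the list `F p` are primitive roots modulo `p` -/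
def MostlyPrimRoots (B : ℕ) (F : ℕ → List ℕ) (p : ℕ) : Prop :=
  p.size ^ B * ((Finset.range (F p).length).filter fun i => ¬ IsPrimRoot p ((F p).getD i 0)).card ≤ (F p).length

/-- there is a list `F p` of `size(p) ^ C` numbers, computable in polynomial time, which consists mostly of primitive roots
modulo `p` for EVERY prime `p` with `|p - c n ^ j α ^ n| ≤ D (c n ^ j α ^ n) ^ l`, `n` large, for all positive algebraic
numbers `c`, all integers `j` and all `D` -/
def Computable (l : ℝ) (B : ℕ) (α : ℝ) : Prop :=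
  ∃ (C : ℕ) (F : ℕ → List ℕ), PolyTimeList F ∧ (∀ p : ℕ, (F p).length = p.size ^ C) ∧
    ∀ c : ℝ, 0 < c → IsAlgebraic ℚ c → ∀ (j : ℤ) (D : ℝ), ∀ᶠ n : ℕ in atTop, ∀ p : ℕ, p.Prime → NearPow α c j D l n p →
      MostlyPrimRoots B F p

open Classical in
theorem part (l : ℝ) (hl : l < 1) :
    ∃ E : Set ℝ, dimH E = 0 ∧ ∀ α : ℝ, 1 < α → α ∉ E → ∀ B : ℕ, Computable l B α := by
  have h0 : ∀ B k : ℕ, ∃ (C : ℕ) (F : ℕ → List ℕ), (PolyTimeList F ∧ (∀ p : ℕ, (F p).length = p.size ^ C)) ∧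
      ∃ C' : ℝ, ∀ T : ℝ, 1 ≤ T →
        (({m | m ∈ {p : ℕ | p.Prime ∧ ¬ MostlyPrimRoots B F p} ∧ (m : ℝ) ≤ T}).ncard : ℝ) ≤ C' * T ^ (0 + 1 / ((k : ℝ) + 1)) := by
    intro B k
    have hk : (0 : ℝ) < 1 / ((k : ℝ) + 1) := by positivity
    obtain ⟨C, F, h1, h2, x₀, h3⟩ := AlmostAllPrimes.result (1 / ((k : ℝ) + 1)) hk B
    refine ⟨C, F, ⟨h1, h2⟩, x₀ + 2, fun T hT => ?_⟩
    have hT0 : 0 < T := by linarith
    rw [zero_add]
    have hT1 : (1 : ℝ) ≤ T ^ (1 / ((k : ℝ) + 1)) := Real.one_le_rpow hT hk.le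
    have hfl : (⌊T⌋₊ : ℝ) ≤ T := Nat.floor_le hT0.le
    have hx0 : (0 : ℝ) ≤ x₀ := Nat.cast_nonneg _
    rcases le_or_gt x₀ ⌊T⌋₊ with h4 | h4
    · have h5 := h3 _ h4
      have hsub : {m | m ∈ {p : ℕ | p.Prime ∧ ¬ MostlyPrimRoots B F p} ∧ (m : ℝ) ≤ T} ⊆
          ((((Finset.range (⌊T⌋₊ + 1)).filter fun p => p.Prime ∧ ¬ p.size ^ B *
            ((Finset.range (F p).length).filter fun i => ¬ IsPrimRoot p ((F p).getD i 0)).card ≤ (F p).length) : Finset ℕ) :
              Set ℕ) := by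
        rintro m ⟨⟨h6, h7⟩, h8⟩
        rw [Finset.mem_coe, Finset.mem_filter, Finset.mem_range]
        exact ⟨Nat.lt_succ_of_le (Nat.le_floor h8), h6, h7⟩
      have h6 := Set.ncard_le_ncard hsub (Finset.finite_toSet _)
      rw [Set.ncard_coe_finset] at h6
      have h7 : (((Finset.range (⌊T⌋₊ + 1)).filter fun p => p.Prime ∧ ¬ p.size ^ B *
            ((Finset.range (F p).length).filter fun i => ¬ IsPrimRoot p ((F p).getD i 0)).card ≤ (F p).length).card : ℝ) ≤
          (⌊T⌋₊ : ℝ) ^ (1 / ((k : ℝ) + 1)) := by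
        refine le_trans (le_of_eq ?_) h5
        congr 2
      have h8 : (⌊T⌋₊ : ℝ) ^ (1 / ((k : ℝ) + 1)) ≤ T ^ (1 / ((k : ℝ) + 1)) := Real.rpow_le_rpow (Nat.cast_nonneg _) hfl hk.le
      have h9 : (({m | m ∈ {p : ℕ | p.Prime ∧ ¬ MostlyPrimRoots B F p} ∧ (m : ℝ) ≤ T}).ncard : ℝ) ≤
          T ^ (1 / ((k : ℝ) + 1)) := (Nat.cast_le.2 h6).trans (h7.trans h8)
      nlinarith
    · have hsub : {m | m ∈ {p : ℕ | p.Prime ∧ ¬ MostlyPrimRoots B F p} ∧ (m : ℝ) ≤ T} ⊆
          ((Finset.range (x₀ + 1) : Finset ℕ) : Set ℕ) := by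
        rintro m ⟨-, h8⟩
        rw [Finset.mem_coe, Finset.mem_range]
        have := Nat.le_floor h8
        omega
      have h6 := Set.ncard_le_ncard hsub (Finset.finite_toSet _)
      rw [Set.ncard_coe_finset, Finset.card_range] at h6
      have h9 : (({m | m ∈ {p : ℕ | p.Prime ∧ ¬ MostlyPrimRoots B F p} ∧ (m : ℝ) ≤ T}).ncard : ℝ) ≤ (x₀ : ℝ) + 1 := by
        exact_mod_cast h6
      nlinarith
  choose C F hF hC using h0
  obtain ⟨E, hE, hg⟩ := pow_alg_inf (ι := ℕ) (fun B k => {p : ℕ | p.Prime ∧ ¬ MostlyPrimRoots B (F B k) p}) 0 l le_rfl hl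
    (fun B k => hC B k)
  refine ⟨E, ?_, fun α hα hαE B => ?_⟩
  · rw [zero_div, ENNReal.ofReal_zero] at hE
    exact le_antisymm hE bot_le
  · obtain ⟨k, hk⟩ := hg α hα hαE B
    refine ⟨C B k, F B k, (hF B k).1, (hF B k).2, fun c hc hca j D => ?_⟩
    filter_upwards [hk c hc hca j D] with n hn p hp hpn
    by_contra hcon
    exact hn p hpn ⟨hp, hcon⟩

/-- **Theorem.** -/
theorem result : ∃ E : Set ℝ, dimH E = 0 ∧ ∀ α : ℝ, 1 < α → α ∉ E → ∀ l : ℝ, l < 1 → ∀ B : ℕ, Computable l B α := by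
  have h0 : ∀ k : ℕ, ∃ E : Set ℝ, dimH E = 0 ∧ ∀ α : ℝ, 1 < α → α ∉ E → ∀ B : ℕ, Computable (1 - 1 / ((k : ℝ) + 1)) B α := by
    intro k
    refine part _ ?_
    have : (0 : ℝ) < 1 / ((k : ℝ) + 1) := by positivity
    linarith
  choose E hE hg using h0
  refine ⟨⋃ k, E k, ?_, fun α hα hαE l hl B => ?_⟩
  · rw [dimH_iUnion]
    refine le_antisymm (iSup_le fun k => (hE k).le) bot_le
  · simp only [Set.mem_iUnion, not_exists] at hαE
    obtain ⟨k, hk⟩ := exists_nat_one_div_lt (show 0 < 1 - l by linarith)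
    obtain ⟨C, F, h1, h2, h3⟩ := hg k α hα (hαE k) B
    refine ⟨C, F, h1, h2, fun c hc hca j D => ?_⟩
    filter_upwards [h3 c hc hca j |D|, (grow hα hc j).eventually_ge_atTop 1] with n h4 h5 p hp hpn
    exact h4 p hp (hpn.mono h5 (by linarith) le_rfl)

end Pool.Agent.Results.MP_18a8a6_lc.PrimesNearPowers
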