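import Mathlib
import Pool.Agent.Q84.MB.F4
import Pool.Agent.Q84.NX.Near
import Pool.Agent.Results.MP_18a8a6_lc.AlmostAllPrimes

/-!
# Primitive roots in polynomial time for all primes near the multiples of the primes of a string

Let `0 ≤ θ < 1` and `K`, `B` be natural numbers. There is ONE polynomial-time computable list `F r` (the number of its
entries is a fixed power of the number of digits of `r`) with the following property. For all `κ > 0` and `m` there are
`c > 0` and, for every `Z`, a number `D` such that for every large `X` there is a set `S` of at most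
`(log X) ^ (49 / 50)` primes, all larger than `Z`, such that for EVERY function `f` with values `1` and `-1` on the
primes at least `X ^ (1 - κ)` integers `n`, `X < n ≤ 3X`, satisfy: the interval `[n, n + D]` contains at least `m`
primes, and for every prime `p` in it

* the Legendre symbol `(p / q)` is `f q` for all odd primes `q ≤ c log X` outside `S`;
* for ALL primes `r` with `|r - k p| ≤ p ^ θ` for some `k`, `1 ≤ k ≤ p ^ K` (`r = p` among them) all but a fraction
  `(size r) ^ (-B)` of the entries of the list `F r` are primitive roots modulo `r`.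

Method: by the starting result `AlmostAllPrimes` there are at most `x ^ ε` exceptional primes `r ≤ x`, for any given
`ε > 0`; few primes `p` have an exceptional number near one of their first `p ^ K` multiples (`Q84/NX/Near`); the
Maynard-Tao theorem relative to a modulus which is a small power of `X`, in the form that it avoids arbitrary
exceptional sets of size `X ^ (1 - η)` (`Q84/MB/E1-E4`), gives the strings.
-/

set_option autoImplicit false

open scoped Classical

namespace Pool.Agent.Results.MP_18a8a6_lc.StringsNearMultiples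

open Finset Filter

/-- `F` is computable in polynomial time: some function on bit strings computed by a Turing machine
(Mathlib's `TM2ComputableInPolyTime`) in polynomially many steps sends the binary digits of `p` to
the code of the list `F p`. -/
def PolyTimeList (F : ℕ → List ℕ) : Prop :=
  ∃ f : List Bool → List Bool, NPC.PolyTime f ∧ ∀ p : ℕ, f (Nat.bits p) = NPC.bits (F p)

/-- `g` is a primitive root modulo `p` -/
def IsPrimRoot (p g : ℕ) : Prop := orderOf (g : ZMod p) = p - 1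

/-- all but a fraction `(size r) ^ (-B)` of the entries of the list `F r` are primitive roots modulo `r` -/
def MostlyPrimRoots (F : ℕ → List ℕ) (B r : ℕ) : Prop :=
  r.size ^ B * ((range (F r).length).filter fun i => ¬ IsPrimRoot r ((F r).getD i 0)).card ≤ (F r).length

/-- the conclusion for all primes near the first `p ^ K` multiples of `p` -/
def AllNear (F : ℕ → List ℕ) (B K : ℕ) (θ : ℝ) (p : ℕ) : Prop :=
  ∀ k r : ℕ, 1 ≤ k → k ≤ p ^ K → r.Prime → |(r : ℝ) - k * p| ≤ (p : ℝ) ^ θ → MostlyPrimRoots F B r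

theorem result (θ : ℝ) (hθ : 0 ≤ θ) (hθ1 : θ < 1) (K B : ℕ) :
    ∃ (A : ℕ) (F : ℕ → List ℕ), PolyTimeList F ∧ (∀ r : ℕ, (F r).length = r.size ^ A) ∧
    ∀ κ : ℝ, 0 < κ → ∀ m : ℕ, ∃ c : ℝ, 0 < c ∧
    ∀ Z : ℕ, ∃ D : ℕ, ∃ X₀ : ℝ, ∀ X : ℝ, X₀ ≤ X →
    ∃ S : Finset ℕ, (∀ q ∈ S, q.Prime ∧ Z < q) ∧ (S.card : ℝ) ≤ (Real.log X) ^ (49 / 50 : ℝ) ∧
    ∀ f : ℕ → ℤ, (∀ q, f q = 1 ∨ f q = -1) →
      X ^ (1 - κ) ≤ (((Icc 1 ⌊3 * X⌋₊).filter fun n : ℕ => X < n ∧
        m ≤ ((Icc n (n + D)).filter Nat.Prime).card ∧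
        ∀ p ∈ Icc n (n + D), p.Prime → AllNear F B K θ p ∧
          ∀ q : ℕ, q.Prime → q ≠ 2 → (q : ℝ) ≤ c * Real.log X → q ∉ S → jacobiSym p q = f q).card : ℝ) := by
  obtain ⟨ε, hε⟩ : ∃ ε, ε = (1 - θ) / (4 * (K + 1)) := ⟨_, rfl⟩
  have hK : (0 : ℝ) < 4 * (K + 1) := by positivity
  have hε0 : 0 < ε := by rw [hε]; exact div_pos (by linarith) hK
  have hKε : (K + 1) * ε = (1 - θ) / 4 := by
    rw [hε]
    field_simp
  obtain ⟨A, F, hF, hlen, hexc⟩ := AlmostAllPrimes.result ε hε0 B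
  refine ⟨A, F, hF, hlen, fun κ hκ m => ?_⟩
  obtain ⟨η, hη⟩ : ∃ η, η = min κ ((1 - θ) / 4) := ⟨_, rfl⟩
  have hη0 : 0 < η := by rw [hη]; exact lt_min hκ (by linarith)
  have hη1 : η ≤ κ := by rw [hη]; exact min_le_left _ _
  have hη2 : η ≤ (1 - θ) / 4 := by rw [hη]; exact min_le_right _ _
  obtain ⟨c, hc, hmain⟩ := Pool.Agent.Q84.MB.sym_strings m η hη0
  refine ⟨c, hc, fun Z => ?_⟩
  obtain ⟨C, hC⟩ := hmain Z
  obtain ⟨R, hR⟩ : ∃ R : ℕ → Prop, R = fun r => r.Prime ∧ ¬ MostlyPrimRoots F B r := ⟨_, rfl⟩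
  have hbad := Pool.Agent.Q84.NX.near_bad R K ε θ η hε0.le hθ hθ1.le (by rw [hKε]; linarith) (by
    obtain ⟨x₀, hx₀⟩ := hexc
    refine ⟨x₀, fun x hx => le_trans (le_of_eq ?_) (hx₀ x hx)⟩
    rw [hR]
    unfold MostlyPrimRoots IsPrimRoot AlmostAllPrimes.IsPrimRoot
    congr!)
  obtain ⟨X₀, hX₀⟩ := eventually_atTop.1 ((hC.and hbad).and (eventually_ge_atTop (1 : ℝ)))
  refine ⟨C, X₀, fun X hX => ?_⟩
  obtain ⟨⟨⟨S, hS1, hS2, hS3⟩, hXb⟩, hX1⟩ := hX₀ X hX
  refine ⟨S, hS1, hS2, fun f hf => ?_⟩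
  have h1 := hS3 f hf (AllNear F B K θ) (by
    refine le_trans ?_ hXb
    rw [Nat.cast_le]
    apply card_le_card
    intro p hp
    rw [mem_filter] at hp ⊢
    obtain ⟨h3, h4, h5, h6⟩ := hp
    refine ⟨h3, h4, h5, ?_⟩
    unfold AllNear at h6
    push Not at h6
    obtain ⟨k, r, hk1, hk2, hr, hkr, hbad⟩ := h6
    refine ⟨k, r, hk1, hk2, ?_, hkr⟩
    rw [hR]
    exact ⟨hr, hbad⟩)
  have h2 : X ^ (1 - κ) ≤ X ^ (1 - η) := Real.rpow_le_rpow_of_exponent_le hX1 (by linarith)
  refine h2.trans (h1.trans ?_)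
  rw [Nat.cast_le]
  apply card_le_card
  intro n hn
  rw [mem_filter] at hn ⊢
  obtain ⟨h3, h4, h5⟩ := hn
  exact ⟨h3, h4, h5.1, h5.2⟩

end Pool.Agent.Results.MP_18a8a6_lc.StringsNearMultiples
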